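import Pool.Agent.H34.CGS.Stmts

/-!
Row DVC of the board cgs: rules for the derivative of a word.
-/

set_option autoImplicit false

noncomputable section

namespace Pool.CGS

open Pool.CGR

namespace DVCH

variable {α B : Type} [DecidableEq α] [Ring B] (x : α → B) (i : α) (a : B)

omit [DecidableEq α] in
theorem ev_nil : ev x [] = 1 := rfl

omit [DecidableEq α] in
theorem ev_cons (j : α) (w : List α) : ev x (j :: w) = x j * ev x w := by
  simp [ev]

omit [DecidableEq α] in
theorem ev_append (u v : List α) : ev x (u ++ v) = ev x u * ev x v := by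
  simp [ev]

theorem dv_nil : dv x i a [] = 0 := rfl

theorem dv_cons (j : α) (w : List α) :
    dv x i a (j :: w) = (if j = i then a * ev x w else 0) + x j * dv x i a w := by
  unfold dv
  rw [List.length_cons, Finset.sum_range_succ', add_comm, Finset.mul_sum]
  congr 1
  · simp [ev_nil]
  · refine Finset.sum_congr rfl fun k _ => ?_
    simp only [List.getElem?_cons_succ, List.take_succ_cons, List.drop_succ_cons, ev_cons]
    split_ifs
    · rw [mul_assoc, mul_assoc, mul_assoc]
    · rw [mul_zero]

theorem dv_append (u v : List α) :
    dv x i a (u ++ v) = dv x i a u * ev x v + ev x u * dv x i a v := by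
  induction u with
  | nil => rw [List.nil_append, dv_nil, ev_nil, zero_mul, one_mul, zero_add]
  | cons j u ih =>
    rw [List.cons_append, dv_cons, ih, dv_cons, ev_cons, ev_append]
    split_ifs
    · noncomm_ring
    · noncomm_ring

theorem dv_add (b : B) (w : List α) : dv x i (a + b) w = dv x i a w + dv x i b w := by
  unfold dv
  rw [← Finset.sum_add_distrib]
  refine Finset.sum_congr rfl fun k _ => ?_
  split_ifs
  · rw [mul_add, add_mul]
  · rw [add_zero]

end DVCH

open DVCH in
theorem dvc_thm : DVCStmt := by
  intro α B _ _ x i a
  exact ⟨dv_nil x i a, dv_cons x i a, dv_append x i a, dv_add x i a⟩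

end Pool.CGS
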